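import Pool.Agent.Helper539.DimThree
import Pool.Agent.Helper539.DimOracle

/-!
The parity law for the solutions of dimensionality problems.
-/

set_option autoImplicit false

namespace Pool.Agent.Y458.DP

open Pool.Agent.Helper539.Dim

/-! ### Rearranged tuples -/

theorem codeOf_comp_le {n m : ℕ} (L : Fin m → ℕ → ℕ → Prop) (r : Fin n → Fin m) :
    TuringReducible ((codeOf (L ∘ r) : ℕ → ℕ) : ℕ →. ℕ) ((codeOf L : ℕ → ℕ) : ℕ →. ℕ) := by
  classical
  let l : List ℕ := List.ofFn fun i : Fin n => (r i : ℕ)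
  have hl : ∀ (i : ℕ) (h : i < n), l.getD i 0 = r ⟨i, h⟩ := by
    intro i h
    rw [List.getD_eq_getElem _ _ (by simpa [l] using h)]
    simp [l]
  have hg : Primrec fun q : ℕ => Nat.pair (l.getD q.unpair.1 0) q.unpair.2 :=
    Primrec₂.natPair.comp
      ((Primrec.list_getD 0).comp (Primrec.const l) (Primrec.fst.comp Primrec.unpair))
      (Primrec.snd.comp Primrec.unpair)
  have hG : Primrec fun p : ℕ × ℕ => if p.1.unpair.1 < n then p.2 else 0 :=
    Primrec.ite (Primrec.nat_lt.comp (Primrec.fst.comp (Primrec.unpair.comp Primrec.fst))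
      (Primrec.const n)) Primrec.snd (Primrec.const 0)
  have h1 : ComputableIn {((codeOf L : ℕ → ℕ) : ℕ →. ℕ)} fun q : ℕ =>
      (q, codeOf L (Nat.pair (l.getD q.unpair.1 0) q.unpair.2)) :=
    cin_pair (Primrec.id.computableIn) (cin_comp (cin_oracle _) hg.computableIn)
  have h2 := cin_prim hG h1
  have e : (fun q : ℕ => if q.unpair.1 < n then
      codeOf L (Nat.pair (l.getD q.unpair.1 0) q.unpair.2) else 0) = codeOf (L ∘ r) := by
    funext q
    by_cases hq : q.unpair.1 < n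
    · rw [if_pos hq, hl _ hq]
      simp only [codeOf, Nat.unpair_pair]
      have e1 : (∃ h : ((r ⟨q.unpair.1, hq⟩ : Fin m) : ℕ) < m, L ⟨(r ⟨q.unpair.1, hq⟩ : Fin m), h⟩
          q.unpair.2.unpair.1 q.unpair.2.unpair.2) ↔ (∃ h : q.unpair.1 < n,
          (L ∘ r) ⟨q.unpair.1, h⟩ q.unpair.2.unpair.1 q.unpair.2.unpair.2) :=
        ⟨fun ⟨_, h⟩ => ⟨hq, h⟩, fun ⟨_, h⟩ => ⟨(r ⟨q.unpair.1, hq⟩).2, h⟩⟩
      by_cases h3 : ∃ h : q.unpair.1 < n,
          (L ∘ r) ⟨q.unpair.1, h⟩ q.unpair.2.unpair.1 q.unpair.2.unpair.2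
      · rw [if_pos h3, if_pos (e1.2 h3)]
      · rw [if_neg h3, if_neg (fun h => h3 (e1.1 h))]
    · rw [if_neg hq]
      simp only [codeOf]
      rw [if_neg (fun ⟨h, _⟩ => hq h)]
  have h3 : ComputableIn {((codeOf L : ℕ → ℕ) : ℕ →. ℕ)} (codeOf (L ∘ r)) := by
    rw [← e]
    exact h2
  exact h3

/-! ### The involution -/

section flip

variable {n : ℕ} {X : Type*}

/-- `j ↦ i` for `j < i`, `i ↦ i0` -/
def fl (i0 i : Fin n) (j : Fin n) : Fin n := if j < i then i else if j = i then i0 else j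

/-- `i` is the first place with a value different from the value at the place `i0` -/
def Piv (i0 : Fin n) (L : Fin n → X) (i : Fin n) : Prop := L i ≠ L i0 ∧ ∀ j < i, L j = L i0

theorem exists_piv (i0 : Fin n) (L : Fin n → X) (h : ∃ i, L i ≠ L i0) : ∃ i, Piv i0 L i := by
  obtain ⟨i, hi⟩ := h
  have hne : {i | L i ≠ L i0}.Nonempty := ⟨i, hi⟩
  refine ⟨wellFounded_lt.min _ hne, wellFounded_lt.min_mem _ hne, fun j hj => ?_⟩
  by_contra hcon
  exact wellFounded_lt.not_lt_min {i | L i ≠ L i0} hcon hj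

theorem Piv.unique {i0 : Fin n} {L : Fin n → X} {i i' : Fin n} (h : Piv i0 L i)
    (h' : Piv i0 L i') : i = i' := by
  rcases lt_trichotomy i i' with h1 | h1 | h1
  · exact absurd (h'.2 i h1) h.1
  · exact h1
  · exact absurd (h.2 i' h1) h'.1

variable (hn : 0 < n)

theorem piv_pos {L : Fin n → X} {i : Fin n} (h : Piv ⟨0, hn⟩ L i) : (⟨0, hn⟩ : Fin n) < i := by
  rcases lt_trichotomy (⟨0, hn⟩ : Fin n) i with h1 | h1 | h1
  · exact h1
  · exact absurd (by rw [← h1]) h.1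
  · exact absurd h1 (by simp [Fin.lt_def])

theorem fl_lt {i0 i j : Fin n} (h : j < i) : fl i0 i j = i := if_pos h
theorem fl_eq {i0 i : Fin n} : fl i0 i i = i0 := by
  unfold fl
  rw [if_neg (lt_irrefl _), if_pos rfl]
theorem fl_gt {i0 i j : Fin n} (h : i < j) : fl i0 i j = j := by
  unfold fl
  rw [if_neg h.not_gt, if_neg h.ne']

theorem piv_fl {L : Fin n → X} {i : Fin n} (h : Piv ⟨0, hn⟩ L i) :
    Piv ⟨0, hn⟩ (L ∘ fl ⟨0, hn⟩ i) i := by
  have h0 := piv_pos hn h
  have e0 : (L ∘ fl ⟨0, hn⟩ i) ⟨0, hn⟩ = L i := by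
    show L (fl ⟨0, hn⟩ i ⟨0, hn⟩) = L i
    rw [fl_lt h0]
  refine ⟨?_, fun j hj => ?_⟩
  · rw [e0]
    show L (fl ⟨0, hn⟩ i i) ≠ L i
    rw [fl_eq]
    exact h.1.symm
  · rw [e0]
    show L (fl ⟨0, hn⟩ i j) = L i
    rw [fl_lt hj]

theorem fl_fl {L : Fin n → X} {i : Fin n} (h : Piv ⟨0, hn⟩ L i) :
    (L ∘ fl ⟨0, hn⟩ i) ∘ fl ⟨0, hn⟩ i = L := by
  have h0 := piv_pos hn h
  funext j
  show L (fl ⟨0, hn⟩ i (fl ⟨0, hn⟩ i j)) = L j
  rcases lt_trichotomy j i with h1 | h1 | h1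
  · rw [fl_lt h1, fl_eq, h.2 j h1]
  · rw [h1, fl_eq, fl_lt h0]
  · rw [fl_gt h1, fl_gt h1]

end flip

theorem even_of_involution {α : Type*} (S : Set α) (hS : S.Finite) (τ : α → α)
    (h1 : ∀ x ∈ S, τ x ∈ S) (h2 : ∀ x ∈ S, τ (τ x) = x) (h3 : ∀ x ∈ S, τ x ≠ x) :
    Even S.ncard := by
  classical
  rw [Set.ncard_eq_toFinset_card S hS]
  have h := Finset.sum_involution (s := hS.toFinset) (f := fun _ => (1 : ZMod 2))
    (fun a _ => τ a) (fun a _ => by decide) (fun a ha _ => h3 a (hS.mem_toFinset.1 ha))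
    (fun a ha => hS.mem_toFinset.2 (h1 a (hS.mem_toFinset.1 ha)))
    (fun a ha => h2 a (hS.mem_toFinset.1 ha))
  rw [Finset.sum_const, nsmul_eq_mul, mul_one] at h
  exact (ZMod.natCast_eq_zero_iff_even).1 h

/-! ### The parity law -/

theorem card_even {A : Set ℕ} {R : ℕ → ℕ → Prop} {n : ℕ} (hn : 1 ≤ n)
    (hR : ¬ IsLinearOrdering A R) (f : ℕ → ℕ)
    (hfin : {L : Fin n → ℕ → ℕ → Prop | IsSolution A R n L ∧
      TuringEquivalent ((codeOf L : ℕ → ℕ) : ℕ →. ℕ) (f : ℕ →. ℕ)}.Finite) :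
    Even {L : Fin n → ℕ → ℕ → Prop | IsSolution A R n L ∧
      TuringEquivalent ((codeOf L : ℕ → ℕ) : ℕ →. ℕ) (f : ℕ →. ℕ)}.ncard := by
  classical
  have hne : ∀ L : Fin n → ℕ → ℕ → Prop, IsSolution A R n L → ∃ i, L i ≠ L ⟨0, hn⟩ := by
    intro L hL
    by_contra hcon
    push Not at hcon
    exact hR (linear_of_const hn hL (fun i j => by rw [hcon i, hcon j]))
  let τ : (Fin n → ℕ → ℕ → Prop) → (Fin n → ℕ → ℕ → Prop) := fun L =>
    if h : ∃ i, Piv ⟨0, hn⟩ L i then L ∘ fl ⟨0, hn⟩ h.choose else L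
  have hτ : ∀ (L : Fin n → ℕ → ℕ → Prop) (i : Fin n), Piv ⟨0, hn⟩ L i →
      τ L = L ∘ fl ⟨0, hn⟩ i := by
    intro L i hi
    have h : ∃ i, Piv ⟨0, hn⟩ L i := ⟨i, hi⟩
    have e : h.choose = i := h.choose_spec.unique hi
    show (if h : ∃ i, Piv ⟨0, hn⟩ L i then L ∘ fl ⟨0, hn⟩ h.choose else L) = _
    rw [dif_pos h, e]
  refine even_of_involution _ hfin τ ?_ ?_ ?_
  · rintro L ⟨hL, hf⟩
    obtain ⟨i, hi⟩ := exists_piv ⟨0, hn⟩ L (hne L hL)
    rw [hτ L i hi]
    refine ⟨solution_of_range hL (fun k => ⟨_, rfl⟩) (fun k => ⟨fl ⟨0, hn⟩ i k, ?_⟩), ?_⟩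
    · exact (congrFun (fl_fl hn hi) k).symm
    · refine TuringEquivalent.trans _ _ _ ⟨codeOf_comp_le L _, ?_⟩ hf
      have h1 := codeOf_comp_le (L ∘ fl ⟨0, hn⟩ i) (fl ⟨0, hn⟩ i)
      rw [fl_fl hn hi] at h1
      exact h1
  · rintro L ⟨hL, hf⟩
    obtain ⟨i, hi⟩ := exists_piv ⟨0, hn⟩ L (hne L hL)
    rw [hτ L i hi, hτ _ i (piv_fl hn hi), fl_fl hn hi]
  · rintro L ⟨hL, hf⟩ h
    obtain ⟨i, hi⟩ := exists_piv ⟨0, hn⟩ L (hne L hL)
    rw [hτ L i hi] at h
    have h1 := congrFun h ⟨0, hn⟩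
    have h2 : (L ∘ fl ⟨0, hn⟩ i) ⟨0, hn⟩ = L i := by
      show L (fl ⟨0, hn⟩ i ⟨0, hn⟩) = L i
      rw [fl_lt (piv_pos hn hi)]
    exact hi.1 (h2.symm.trans h1)

/-! ### The factorial law -/

theorem card_dvd_of_classes {α : Type*} (S : Finset α) (r : Setoid α) (N : ℕ)
    (h : ∀ x ∈ S, ∃ T : Finset α, T.card = N ∧ ∀ y, y ∈ T ↔ y ∈ S ∧ r.r y x) : N ∣ S.card := by
  classical
  rw [Finset.card_eq_sum_card_fiberwise (f := Quotient.mk r) (t := S.image (Quotient.mk r))
    (fun x hx => by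
      simp only [Finset.coe_image]
      exact ⟨x, hx, rfl⟩)]
  refine Finset.dvd_sum fun q hq => ?_
  obtain ⟨x, hx, rfl⟩ := Finset.mem_image.1 hq
  obtain ⟨T, hT, hTS⟩ := h x hx
  have e : S.filter (fun y => Quotient.mk r y = Quotient.mk r x) = T := by
    ext y
    rw [Finset.mem_filter, hTS]
    exact and_congr_right fun _ => ⟨fun h => Quotient.exact h, fun h => Quotient.sound h⟩
  rw [e, hT]

theorem solution_of_range' {A : Set ℕ} {R : ℕ → ℕ → Prop} {n m : ℕ}
    {L : Fin n → ℕ → ℕ → Prop} {L' : Fin m → ℕ → ℕ → Prop}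
    (h : IsSolution A R n L) (h1 : ∀ i, ∃ j, L' i = L j) (h2 : ∀ j, ∃ i, L j = L' i) :
    IsSolution A R m L' := by
  refine ⟨?_, ?_⟩
  · intro i
    obtain ⟨j, hj⟩ := h1 i
    rw [hj]
    exact h.1 j
  · intro a b
    rw [h.2]
    constructor
    · intro h3 i
      obtain ⟨j, hj⟩ := h1 i
      rw [hj]
      exact h3 j
    · intro h3 j
      obtain ⟨i, hi⟩ := h2 j
      rw [hi]
      exact h3 i

theorem injective_of_dim {A : Set ℕ} {R : ℕ → ℕ → Prop} {n : ℕ}
    (hdim : ∀ m, 1 ≤ m → m < n → solutions A R m = ∅) {L : Fin n → ℕ → ℕ → Prop}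
    (h : IsSolution A R n L) : Function.Injective L := by
  intro i j hij
  by_contra hne
  rcases n with _ | n
  · exact i.elim0
  have hn : 1 ≤ n := by
    by_contra hcon
    have h0 : n = 0 := by omega
    subst h0
    exact hne (Fin.ext (by have := i.2; have := j.2; omega))
  have hsol : IsSolution A R n (L ∘ j.succAbove) := by
    refine solution_of_range' h (fun k => ⟨_, rfl⟩) (fun k => ?_)
    by_cases hk : k = j
    · obtain ⟨i', hi'⟩ := Fin.exists_succAbove_eq hne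
      exact ⟨i', by
        show L k = L (j.succAbove i')
        rw [hi', hk, hij]⟩
    · obtain ⟨k', hk'⟩ := Fin.exists_succAbove_eq hk
      exact ⟨k', by
        show L k = L (j.succAbove k')
        rw [hk']⟩
  have h2 : codeOf (L ∘ j.succAbove) ∈ solutions A R n := ⟨_, hsol, rfl⟩
  rw [hdim n hn (Nat.lt_succ_self n)] at h2
  exact h2

theorem card_fact {A : Set ℕ} {R : ℕ → ℕ → Prop} {n : ℕ}
    (hdim : ∀ m, 1 ≤ m → m < n → solutions A R m = ∅) (f : ℕ → ℕ)
    (hfin : {L : Fin n → ℕ → ℕ → Prop | IsSolution A R n L ∧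
      TuringEquivalent ((codeOf L : ℕ → ℕ) : ℕ →. ℕ) (f : ℕ →. ℕ)}.Finite) :
    n.factorial ∣ {L : Fin n → ℕ → ℕ → Prop | IsSolution A R n L ∧
      TuringEquivalent ((codeOf L : ℕ → ℕ) : ℕ →. ℕ) (f : ℕ →. ℕ)}.ncard := by
  classical
  rw [Set.ncard_eq_toFinset_card _ hfin]
  let r : Setoid (Fin n → ℕ → ℕ → Prop) := ⟨fun L M => ∃ σ : Equiv.Perm (Fin n), L = M ∘ σ,
    ⟨fun L => ⟨1, rfl⟩, fun {L M} ⟨σ, hσ⟩ => ⟨σ.symm, by
      rw [hσ]
      funext k
      simp⟩, fun {L M N} ⟨σ, hσ⟩ ⟨τ, hτ⟩ => ⟨σ.trans τ, by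
      rw [hσ, hτ]
      rfl⟩⟩⟩
  refine card_dvd_of_classes _ r _ ?_
  intro L hL
  rw [hfin.mem_toFinset] at hL
  obtain ⟨hsol, hf⟩ := hL
  have hinj := injective_of_dim hdim hsol
  refine ⟨Finset.univ.image fun σ : Equiv.Perm (Fin n) => L ∘ σ, ?_, ?_⟩
  · rw [Finset.card_image_of_injective, Finset.card_univ, Fintype.card_perm, Fintype.card_fin]
    intro σ τ h
    ext k
    exact congrArg Fin.val (hinj (congrFun h k))
  · intro M
    rw [Finset.mem_image, hfin.mem_toFinset]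
    constructor
    · rintro ⟨σ, _, rfl⟩
      refine ⟨⟨solution_of_range hsol (fun k => ⟨_, rfl⟩) (fun k => ⟨σ.symm k, by simp⟩), ?_⟩,
        ⟨σ, rfl⟩⟩
      refine TuringEquivalent.trans _ _ _ ⟨codeOf_comp_le L _, ?_⟩ hf
      have h1 := codeOf_comp_le (L ∘ σ) σ.symm
      have e : (L ∘ σ) ∘ σ.symm = L := by
        funext k
        simp
      rw [e] at h1
      exact h1
    · rintro ⟨_, σ, hσ⟩
      exact ⟨σ, Finset.mem_univ _, hσ.symm⟩

theorem codeOf_const_computable {A : Set ℕ} {R : ℕ → ℕ → Prop} (hAR : IsComputablePoset A R)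
    (n : ℕ) : Computable (codeOf (fun _ : Fin n => R)) := by
  classical
  obtain ⟨g, hg, hgR⟩ := ComputablePred.computable_iff.1 hAR.2.1
  have h1 : Computable fun m : ℕ => g (m.unpair.2.unpair.1, m.unpair.2.unpair.2) :=
    hg.comp (Primrec.to_comp (Primrec.pair
      (Primrec.fst.comp (Primrec.unpair.comp (Primrec.snd.comp Primrec.unpair)))
      (Primrec.snd.comp (Primrec.unpair.comp (Primrec.snd.comp Primrec.unpair)))))
  have h2 : Computable fun m : ℕ => decide (m.unpair.1 < n) :=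
    ((Primrec.nat_lt.comp (Primrec.fst.comp Primrec.unpair) (Primrec.const n)).decide).to_comp
  have h3 : Computable fun m : ℕ => cond (decide (m.unpair.1 < n))
      (cond (g (m.unpair.2.unpair.1, m.unpair.2.unpair.2)) 1 0) 0 :=
    Computable.cond h2 (Computable.cond h1 (Computable.const 1) (Computable.const 0))
      (Computable.const 0)
  refine h3.of_eq fun m => ?_
  have e : R m.unpair.2.unpair.1 m.unpair.2.unpair.2 ↔
      g (m.unpair.2.unpair.1, m.unpair.2.unpair.2) = true := by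
    have h4 := congrFun hgR (m.unpair.2.unpair.1, m.unpair.2.unpair.2)
    simp only at h4
    rw [h4]
  unfold codeOf
  by_cases hm : m.unpair.1 < n
  · by_cases hr : R m.unpair.2.unpair.1 m.unpair.2.unpair.2
    · rw [if_pos ⟨hm, hr⟩, e.1 hr]
      simp [hm]
    · rw [if_neg (fun ⟨_, h⟩ => hr h)]
      have h5 : g (m.unpair.2.unpair.1, m.unpair.2.unpair.2) = false := by
        rw [← Bool.not_eq_true]
        exact fun h => hr (e.2 h)
      rw [h5]
      simp
  · rw [if_neg (fun ⟨h, _⟩ => hm h)]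
    simp [hm]

/-- Transfer of the members of one degree. -/
theorem transfer {P : Set (ℕ → ℕ)} {A : Set ℕ} {R : ℕ → ℕ → Prop} {n : ℕ}
    (hrep : Represents P (solutions A R n)) (f : ℕ → ℕ)
    (hfin : {h ∈ P | TuringEquivalent ((h : ℕ → ℕ) : ℕ →. ℕ) (f : ℕ →. ℕ)}.Finite) :
    {L : Fin n → ℕ → ℕ → Prop | IsSolution A R n L ∧
      TuringEquivalent ((codeOf L : ℕ → ℕ) : ℕ →. ℕ) (f : ℕ →. ℕ)}.Finite ∧
    {h ∈ P | TuringEquivalent ((h : ℕ → ℕ) : ℕ →. ℕ) (f : ℕ →. ℕ)}.ncard =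
    {L : Fin n → ℕ → ℕ → Prop | IsSolution A R n L ∧
      TuringEquivalent ((codeOf L : ℕ → ℕ) : ℕ →. ℕ) (f : ℕ →. ℕ)}.ncard := by
  classical
  obtain ⟨F, hF⟩ := hrep
  let G : (Fin n → ℕ → ℕ → Prop) → ℕ → ℕ := fun L =>
    if h : IsSolution A R n L then (F ⟨codeOf L, L, h, rfl⟩ : ℕ → ℕ) else fun _ => 0
  have hG : ∀ L (h : IsSolution A R n L), G L = (F ⟨codeOf L, L, h, rfl⟩ : ℕ → ℕ) := by
    intro L h
    show (if h : IsSolution A R n L then (F ⟨codeOf L, L, h, rfl⟩ : ℕ → ℕ) else fun _ => 0) = _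
    rw [dif_pos h]
  have hinj : Set.InjOn G {L : Fin n → ℕ → ℕ → Prop | IsSolution A R n L ∧
      TuringEquivalent ((codeOf L : ℕ → ℕ) : ℕ →. ℕ) (f : ℕ →. ℕ)} := by
    rintro L ⟨hL, _⟩ L' ⟨hL', _⟩ h
    rw [hG L hL, hG L' hL'] at h
    have h1 := F.injective (Subtype.ext h)
    exact codeOf_injective (congrArg Subtype.val h1)
  have himg : G '' {L : Fin n → ℕ → ℕ → Prop | IsSolution A R n L ∧
      TuringEquivalent ((codeOf L : ℕ → ℕ) : ℕ →. ℕ) (f : ℕ →. ℕ)} =
      {h ∈ P | TuringEquivalent ((h : ℕ → ℕ) : ℕ →. ℕ) (f : ℕ →. ℕ)} := by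
    ext h
    constructor
    · rintro ⟨L, ⟨hL, hf⟩, rfl⟩
      rw [hG L hL]
      exact ⟨(F ⟨codeOf L, L, hL, rfl⟩).2,
        TuringEquivalent.trans _ _ _ (hF ⟨codeOf L, L, hL, rfl⟩) hf⟩
    · rintro ⟨hP, hf⟩
      obtain ⟨⟨x, L, hL, rfl⟩, hx⟩ := F.surjective ⟨h, hP⟩
      refine ⟨L, ⟨hL, ?_⟩, ?_⟩
      · have h1 := hF ⟨codeOf L, L, hL, rfl⟩
        rw [hx] at h1
        exact TuringEquivalent.trans _ _ _ (TuringEquivalent.symm h1) hf
      · rw [hG L hL, hx]
  rw [← himg] at hfin ⊢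
  exact ⟨Set.Finite.of_finite_image hfin hinj, hinj.ncard_image⟩

/-- **The parity law.** In a class which is represented exactly by the solutions of a
dimensionality problem every Turing degree has infinitely many members or an even number of
members, unless the class consists of one computable function. -/
theorem parity_law {P : Set (ℕ → ℕ)} {A : Set ℕ} {R : ℕ → ℕ → Prop} {n : ℕ}
    (hAR : IsComputablePoset A R) (hn : 1 ≤ n) (hrep : Represents P (solutions A R n)) :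
    (∃ f : ℕ → ℕ, Computable f ∧ P = {f}) ∨ ∀ f : ℕ → ℕ,
      {h ∈ P | TuringEquivalent ((h : ℕ → ℕ) : ℕ →. ℕ) (f : ℕ →. ℕ)}.Infinite ∨
      Even {h ∈ P | TuringEquivalent ((h : ℕ → ℕ) : ℕ →. ℕ) (f : ℕ →. ℕ)}.ncard := by
  classical
  by_cases hR : IsLinearOrdering A R
  · left
    obtain ⟨F, hF⟩ := hrep
    have hsol : IsSolution A R n (fun _ => R) := by
      refine ⟨fun _ => hR, fun a b => ⟨fun h _ => h, fun h => h ⟨0, hn⟩⟩⟩
    have huniq : ∀ x ∈ solutions A R n, x = codeOf (fun _ : Fin n => R) := by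
      rintro x ⟨L, hL, rfl⟩
      congr 1
      funext i
      exact eq_of_linear hL hR i
    have hmem : codeOf (fun _ : Fin n => R) ∈ solutions A R n := ⟨_, hsol, rfl⟩
    refine ⟨F ⟨_, hmem⟩, ?_, ?_⟩
    · have h1 := (hF ⟨_, hmem⟩).1
      have h2 : Partrec (((F ⟨_, hmem⟩ : ℕ → ℕ)) : ℕ →. ℕ) := by
        refine RecursiveIn.partrec_of_oracle ?_ h1
        intro g hg
        rw [Set.mem_singleton_iff.1 hg]
        exact codeOf_const_computable hAR n
      exact h2
    · ext h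
      constructor
      · intro hh
        obtain ⟨x, hx⟩ := F.surjective ⟨h, hh⟩
        have h3 : x = ⟨codeOf (fun _ : Fin n => R), hmem⟩ := Subtype.ext (huniq x.1 x.2)
        rw [Set.mem_singleton_iff, ← h3, hx]
      · intro hh
        rw [Set.mem_singleton_iff.1 hh]
        exact (F ⟨_, hmem⟩).2
  · right
    intro f
    by_cases hfin : {h ∈ P | TuringEquivalent ((h : ℕ → ℕ) : ℕ →. ℕ) (f : ℕ →. ℕ)}.Infinite
    · exact Or.inl hfin
    right
    rw [Set.not_infinite] at hfin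
    obtain ⟨h1, h2⟩ := transfer hrep f hfin
    rw [h2]
    exact card_even hn hR f h1

/-- **The factorial law.** If `n` is the dimension then every Turing degree has infinitely many
members or a multiple of `n!` members. -/
theorem factorial_law {P : Set (ℕ → ℕ)} {A : Set ℕ} {R : ℕ → ℕ → Prop} {n : ℕ}
    (hdim : ∀ m, 1 ≤ m → m < n → solutions A R m = ∅)
    (hrep : Represents P (solutions A R n)) (f : ℕ → ℕ) :
    {h ∈ P | TuringEquivalent ((h : ℕ → ℕ) : ℕ →. ℕ) (f : ℕ →. ℕ)}.Infinite ∨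
      n.factorial ∣ {h ∈ P | TuringEquivalent ((h : ℕ → ℕ) : ℕ →. ℕ) (f : ℕ →. ℕ)}.ncard := by
  by_cases hfin : {h ∈ P | TuringEquivalent ((h : ℕ → ℕ) : ℕ →. ℕ) (f : ℕ →. ℕ)}.Infinite
  · exact Or.inl hfin
  right
  rw [Set.not_infinite] at hfin
  obtain ⟨h1, h2⟩ := transfer hrep f hfin
  rw [h2]
  exact card_fact hdim f h1

/-! ### The classes with `k` members -/

/-- The tree whose paths are `c000…` with `c < k`. -/
def Tk (k : ℕ) : Set (List ℕ) := {σ | σ.headI < k ∧ σ.tail.sum = 0}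

theorem Tk_tree {k : ℕ} (hk : 0 < k) : IsTree (Tk k) := by
  intro σ τ hp hτ
  obtain ⟨ρ, rfl⟩ := hp
  cases σ with
  | nil => exact ⟨by simpa using hk, by simp⟩
  | cons a σ =>
    obtain ⟨h1, h2⟩ := hτ
    simp only [List.cons_append, List.headI_cons, List.tail_cons, List.sum_append] at h1 h2
    exact ⟨h1, by simp only [List.tail_cons]; omega⟩

theorem Tk_computable (k : ℕ) : ComputablePred (fun σ => σ ∈ Tk k) := by
  rw [ComputablePred.computable_iff]
  refine ⟨fun σ => decide (σ.headI < k) && decide (σ.tail.sum = 0), ?_, ?_⟩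
  · apply Primrec.to_comp
    have hsum : Primrec (fun σ : List ℕ => σ.tail.sum) := by
      have h : Primrec (fun σ : List ℕ => σ.tail.foldr (fun a b => a + b) 0) :=
        Primrec.list_foldr (α := List ℕ) (β := ℕ) (σ := ℕ) (f := fun σ => σ.tail)
          (g := fun _ => 0) (h := fun _ p => p.1 + p.2) Primrec.list_tail (Primrec.const 0)
          (Primrec.nat_add.comp (Primrec.fst.comp Primrec.snd) (Primrec.snd.comp Primrec.snd))
      refine h.of_eq ?_
      intro σ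
      rw [List.sum_eq_foldr]
    have h1 : Primrec (fun σ : List ℕ => decide (σ.headI < k)) :=
      (Primrec.nat_lt.comp Primrec.list_headI (Primrec.const k)).decide
    have h2 : Primrec (fun σ : List ℕ => decide (σ.tail.sum = 0)) :=
      (Primrec.eq.comp hsum (Primrec.const 0)).decide
    exact Primrec.and.comp h1 h2
  · funext σ
    simp [Tk]

theorem Tk_bounded (k : ℕ) : ∀ σ i, σ ++ [i] ∈ Tk k → i < k + 1 := by
  intro σ i h
  obtain ⟨h1, h2⟩ := h
  cases σ with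
  | nil =>
    have : i < k := by simpa using h1
    omega
  | cons a σ =>
    simp only [List.cons_append, List.tail_cons, List.sum_append, List.sum_singleton] at h2
    omega

/-- The path `c000…`. -/
def pk (c : ℕ) : ℕ → ℕ := fun n => if n = 0 then c else 0

theorem pk_computable (c : ℕ) : Computable (pk c) :=
  (Primrec.ite (Primrec.eq.comp Primrec.id (Primrec.const 0)) (Primrec.const c)
    (Primrec.const 0)).to_comp

theorem pk_mem {k c : ℕ} (hc : c < k) : pk c ∈ paths (Tk k) := by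
  intro n
  cases n with
  | zero => exact ⟨by simp [restrict]; omega, by simp [restrict]⟩
  | succ n =>
    have h : restrict (pk c) (n + 1) = (c : ℕ) :: List.replicate n 0 := by
      rw [restrict, List.range_succ_eq_map, List.map_cons, List.map_map]
      congr 1
      rw [List.eq_replicate_iff]
      refine ⟨by simp, ?_⟩
      intro b hb
      rw [List.mem_map] at hb
      obtain ⟨a, _, rfl⟩ := hb
      simp [pk]
    rw [h]
    exact ⟨hc, by simp⟩

theorem mem_pk {k : ℕ} (x : ℕ → ℕ) (hx : x ∈ paths (Tk k)) : ∃ c < k, x = pk c := by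
  have h0 : x 0 < k := by
    have := (hx 1).1
    simpa [restrict] using this
  refine ⟨x 0, h0, ?_⟩
  funext n
  rcases Nat.eq_zero_or_pos n with rfl | hn
  · simp [pk]
  · have h1 := (hx (n + 1)).2
    have h2 : x n ∈ (restrict x (n + 1)).tail := by
      rw [restrict, List.range_succ_eq_map, List.map_cons, List.tail_cons, List.map_map,
        List.mem_map]
      exact ⟨n - 1, List.mem_range.mpr (by omega), by simp [Nat.sub_add_cancel hn]⟩
    have h3 : x n ≤ (restrict x (n + 1)).tail.sum := List.single_le_sum (by simp) _ h2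
    have h4 : x n = 0 := by omega
    rw [h4, pk, if_neg (by omega)]

theorem paths_eq (k : ℕ) : paths (Tk k) = pk '' Set.Iio k := by
  ext x
  constructor
  · intro hx
    obtain ⟨c, hc, rfl⟩ := mem_pk x hx
    exact ⟨c, hc, rfl⟩
  · rintro ⟨c, hc, rfl⟩
    exact pk_mem hc

theorem pk_injective : Function.Injective pk := by
  intro c d h
  have := congrFun h 0
  simpa [pk] using this

theorem ncard_paths (k : ℕ) : (paths (Tk k)).ncard = k := by
  rw [paths_eq, Set.ncard_image_of_injective _ pk_injective, Set.ncard_eq_toFinset_card']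
  simp

theorem cb_paths {k : ℕ} (hk : 0 < k) : IsCBClass (paths (Tk k)) :=
  ⟨Tk k, Tk_tree hk, Tk_computable k, ⟨fun _ => k + 1, Computable.const (k + 1), Tk_bounded k⟩,
    rfl⟩

theorem turing_pk (f g : ℕ → ℕ) (hf : Computable f) (hg : Computable g) :
    TuringEquivalent (f : ℕ →. ℕ) (g : ℕ →. ℕ) :=
  ⟨Partrec.turingReducible hf, Partrec.turingReducible hg⟩

/-- For odd `k ≥ 3` the class with the `k` members `c000…`, `c < k`, is not represented by the
solutions of any dimensionality problem. -/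
theorem odd_not {k : ℕ} (hk : 3 ≤ k) (hodd : Odd k) (A : Set ℕ) (R : ℕ → ℕ → Prop) (n : ℕ)
    (hAR : IsComputablePoset A R) (hn : 1 ≤ n) :
    ¬ Represents (paths (Tk k)) (solutions A R n) := by
  intro hrep
  have hset : {h ∈ paths (Tk k) | TuringEquivalent ((h : ℕ → ℕ) : ℕ →. ℕ)
      ((pk 0 : ℕ → ℕ) : ℕ →. ℕ)} = paths (Tk k) := by
    ext h
    constructor
    · exact fun h => h.1
    · intro hh
      refine ⟨hh, ?_⟩
      obtain ⟨c, _, rfl⟩ := mem_pk h hh
      exact turing_pk _ _ (pk_computable c) (pk_computable 0)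
  rcases parity_law hAR hn hrep with ⟨f, _, hf⟩ | h
  · have h1 := ncard_paths k
    rw [hf, Set.ncard_singleton] at h1
    omega
  · rcases h (pk 0) with h1 | h1
    · rw [hset, paths_eq] at h1
      exact h1 ((Set.finite_Iio k).image _)
    · rw [hset, ncard_paths] at h1
      exact (Nat.not_even_iff_odd.2 hodd) h1

end Pool.Agent.Y458.DP
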